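import Pool.Agent.H16.ORC.Main

/-!
# MP_5182ad_lc: oracles relative to which the hypothesis of Q1 holds with short advice and its
conclusion fails

The definitions (oracle machines, `PT`, `Ex`, `co`, `UP`, `Sig`, `AdvL`, `Adv`, `S2`) are in
`Pool/Agent/H16/ORC/Defs.lean`.  The proof: `Pool/Agent/H16/ORB/C.lean` (finite core, with the paper
proof in the docstrings) and `Pool/Agent/H16/ORS/W.lean` (oracles and the stages).
-/

set_option autoImplicit false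

namespace Pool.Agent.Results.MP_5182ad_lc.ShortAdvice

open Pool.ORC

/-- The result. -/
theorem result :
    ∀ f ℓ : ℕ → ℕ, Monotone ℓ → (∀ n, n ≤ ℓ n) →
      (∀ C : ℕ, ∃ N : ℕ, ∀ n ≥ N, C * Nat.log 2 (ℓ (n ^ C)) ≤ f n ∧
        C * Nat.log 2 (ℓ (n ^ C)) ≤ n) →
      ∃ O : Set (List Bool),
        Ex (PT O) ⊆ AdvL f (UP O ∩ co (UP O)) ∧ Ex (PT O) ⊆ Adv (Ex (PT O) ∩ co (Ex (PT O))) ∧
          ¬ (Sig O 2 ⊆ S2 ℓ O) ∧ ¬ (Sig O 2 ⊆ S2 id O) ∧ (⋃ k, Sig O k) ≠ S2 id O :=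
  main

end Pool.Agent.Results.MP_5182ad_lc.ShortAdvice
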